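import Pool.Agent.H85.BC.Basic

/-!
# Row CC of the board bcg (helper85, MP_0e7a83_an)

Corners of factors have trivial centre.
-/

set_option autoImplicit false

open Pool.Agent.H85.BC
open scoped InnerProductSpace

namespace Pool.Agent.H13.BC

variable {H : Type} [NormedAddCommGroup H] [InnerProductSpace ℂ H] [CompleteSpace H]

theorem factorCorner_one {N : VonNeumannAlgebra H} (hN : IsFactor N) :
    FactorCorner N (1 : H →L[ℂ] H) := by
  intro x hx hc
  obtain ⟨c, hc'⟩ := hN x hx.1 (fun y hy => hc y ⟨hy, by rw [one_mul, mul_one]⟩)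
  exact ⟨c, hc'⟩

theorem re_of_sa {a : H →L[ℂ] H} (ha : IsSelfAdjoint a) (ζ : H) :
    (inner ℂ ζ (a ζ) : ℂ) = ((inner ℂ ζ (a ζ) : ℂ).re : ℂ) := by
  have h1 : (starRingEnd ℂ) (inner ℂ ζ (a ζ) : ℂ) = inner ℂ ζ (a ζ) := by
    rw [inner_conj_symm]
    conv_lhs => rw [← ha.star_eq]
    exact inner_star_left a ζ ζ
  exact (Complex.conj_eq_iff_re.mp h1).symm

/-- The self-adjoint case. -/
theorem cc_sa (hSP : T_SP H) (hENF : T_ENF H) {N : VonNeumannAlgebra H} (hN : IsFactor N)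
    {p : H →L[ℂ] H} (hpN : p ∈ N) (hp : IsStarProjection p) {a : H →L[ℂ] H}
    (ha : a ∈ corner N p) (hsa : IsSelfAdjoint a)
    (hc : ∀ y ∈ corner N p, a * y = y * a) : ∃ c : ℝ, a = (c : ℂ) • p := by
  have hpa : p * a = a := corner_left hp ha
  have hap : a * p = a := corner_right hp ha
  have hpp : p * p = p := hp.isIdempotentElem.eq
  choose E hEN hEp hEc hE1 hE0 using hSP N a ha.1 hsa
  have hdich : ∀ s : ℝ, E s * p = 0 ∨ E s * p = p := by
    intro s
    by_contra hcon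
    push Not at hcon
    obtain ⟨hne0, hnep⟩ := hcon
    have hpE : p * E s = E s * p := hEc s p (by rw [hpa, hap])
    have hEE : E s * E s = E s := (hEp s).isIdempotentElem.eq
    have hproj : IsStarProjection (E s * p) := by
      refine ⟨?_, ?_⟩
      · show E s * p * (E s * p) = E s * p
        calc E s * p * (E s * p) = E s * (p * E s) * p := by simp only [mul_assoc]
          _ = E s * E s * (p * p) := by rw [hpE]; simp only [mul_assoc]
          _ = E s * p := by rw [hEE, hpp]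
      · show star (E s * p) = E s * p
        rw [star_mul, hp.isSelfAdjoint.star_eq, (hEp s).isSelfAdjoint.star_eq, hpE]
    have hpe : p * (E s * p) = E s * p := by
      rw [← mul_assoc, hpE, mul_assoc, hpp]
    have hep : E s * p * p = E s * p := by rw [mul_assoc, hpp]
    have hproj' : IsStarProjection (p - E s * p) := proj_sub hproj hp hpe
    obtain ⟨x, hxN, hx⟩ := hENF N 1 (one_mem N) (IsStarProjection.one _) (factorCorner_one hN)
      (E s * p) (mul_mem (hEN s) hpN) hproj (one_mul _) hne0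
      (p - E s * p) (sub_mem hpN (mul_mem (hEN s) hpN)) hproj' (one_mul _)
      (fun h => hnep (sub_eq_zero.mp h).symm)
    apply hx
    have hy : p * x * p ∈ corner N p := corner_mk hpN hp hxN
    have hcomm : (p * x * p) * E s = E s * (p * x * p) := hEc s _ (hc _ hy).symm
    have h0 : E s * p * (p - E s * p) = 0 := by
      rw [mul_sub, hep, hproj.isIdempotentElem.eq, sub_self]
    have hpf : p * (p - E s * p) = p - E s * p := by rw [mul_sub, hpp, hpe]
    calc E s * p * x * (p - E s * p)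
        = E s * p * x * (p * (p - E s * p)) := by rw [hpf]
      _ = E s * (p * x * p) * (p - E s * p) := by simp only [mul_assoc]
      _ = (p * x * p) * E s * (p - E s * p) := by rw [hcomm]
      _ = p * x * (p * E s * (p - E s * p)) := by simp only [mul_assoc]
      _ = p * x * (E s * p * (p - E s * p)) := by rw [hpE]
      _ = 0 := by rw [h0, mul_zero]
  -- values of the quadratic form on unit vectors of the range of `p`
  have hval : ∀ ζ₁ ζ₂ : H, p ζ₁ = ζ₁ → p ζ₂ = ζ₂ → ‖ζ₁‖ = 1 → ‖ζ₂‖ = 1 →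
      (inner ℂ ζ₂ (a ζ₂) : ℂ).re ≤ (inner ℂ ζ₁ (a ζ₁) : ℂ).re := by
    intro ζ₁ ζ₂ h1 h2 n1 n2
    by_contra hlt
    push Not at hlt
    obtain ⟨s, hs1, hs2⟩ := exists_between hlt
    rcases hdich s with h | h
    · have h3 : E s ζ₂ = 0 := by
        conv_lhs => rw [← h2]
        rw [← mul_app, h]
        rfl
      have h4 := hE0 s ζ₂ h3
      rw [n2] at h4
      linarith
    · have h3 : E s ζ₁ = ζ₁ := by
        conv_lhs => rw [← h1]
        rw [← mul_app, h, h1]
      have h4 := hE1 s ζ₁ h3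
      rw [n1] at h4
      linarith
  by_cases hp0 : p = 0
  · refine ⟨0, ?_⟩
    rw [← hpa, hp0]
    simp
  obtain ⟨η, hη⟩ : ∃ η : H, p η ≠ 0 := by
    by_contra hcon
    push Not at hcon
    exact hp0 (ContinuousLinearMap.ext hcon)
  set ζ₀ : H := ((‖p η‖⁻¹ : ℝ) : ℂ) • p η with hζ₀
  have hn0 : ‖p η‖ ≠ 0 := norm_ne_zero_iff.mpr hη
  have hpζ₀ : p ζ₀ = ζ₀ := by
    rw [hζ₀, map_smul, ← mul_app, hpp]
  have hnζ₀ : ‖ζ₀‖ = 1 := by
    rw [hζ₀, norm_smul, Complex.norm_real, norm_inv, norm_norm, inv_mul_cancel₀ hn0]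
  set c : ℝ := (inner ℂ ζ₀ (a ζ₀) : ℂ).re with hcdef
  have hform : ∀ ζ : H, p ζ = ζ → (inner ℂ ζ (a ζ) : ℂ) = (c : ℂ) * ((‖ζ‖ ^ 2 : ℝ) : ℂ) := by
    intro ζ hζ
    by_cases h0 : ζ = 0
    · rw [h0]
      simp
    have hn : ‖ζ‖ ≠ 0 := norm_ne_zero_iff.mpr h0
    set ζ' : H := ((‖ζ‖⁻¹ : ℝ) : ℂ) • ζ with hζ'
    have h1 : p ζ' = ζ' := by rw [hζ', map_smul, hζ]
    have h2 : ‖ζ'‖ = 1 := by
      rw [hζ', norm_smul, Complex.norm_real, norm_inv, norm_norm, inv_mul_cancel₀ hn]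
    have h3 : (inner ℂ ζ' (a ζ') : ℂ).re = c :=
      le_antisymm (hval ζ₀ ζ' hpζ₀ h1 hnζ₀ h2) (hval ζ' ζ₀ h1 hpζ₀ h2 hnζ₀)
    have h4 : (inner ℂ ζ' (a ζ') : ℂ) = (((‖ζ‖⁻¹) ^ 2 : ℝ) : ℂ) * inner ℂ ζ (a ζ) := by
      rw [hζ', map_smul, inner_smul_left, inner_smul_right, Complex.conj_ofReal]
      push_cast
      ring
    have h5 : (inner ℂ ζ' (a ζ') : ℂ) = (c : ℂ) := by
      rw [re_of_sa hsa ζ', h3]
    rw [h5] at h4
    rw [h4]
    push_cast
    have hn' : (‖ζ‖ : ℂ) ≠ 0 := by exact_mod_cast hn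
    field_simp
  refine ⟨c, ?_⟩
  rw [← sub_eq_zero]
  have hT : ∀ ζ : H, inner ℂ ((a - (c : ℂ) • p : H →L[ℂ] H) ζ) ζ = (0 : ℂ) := by
    intro ζ
    have h1 : p (p ζ) = p ζ := by rw [← mul_app, hpp]
    have h2 := hform (p ζ) h1
    have h3 : a (p ζ) = a ζ := by rw [← mul_app, hap]
    have h4 : (inner ℂ (p ζ) (a ζ) : ℂ) = inner ℂ ζ (a ζ) := by
      conv_lhs => rw [← hp.isSelfAdjoint.star_eq]
      rw [inner_star_left, ← mul_app, hpa]
    have h5 : (inner ℂ ζ (p ζ) : ℂ) = ((‖p ζ‖ ^ 2 : ℝ) : ℂ) := tr_proj ζ hp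
    rw [h3, h4, ← h5] at h2
    rw [← inner_conj_symm]
    have h6 : (inner ℂ ζ ((a - (c : ℂ) • p : H →L[ℂ] H) ζ) : ℂ) = 0 := by
      rw [sub_apply, smul_apply, inner_sub_right,
        inner_smul_right, h2, sub_self]
    rw [h6, map_zero]
  have hlin := (inner_map_self_eq_zero ((a - (c : ℂ) • p : H →L[ℂ] H) : H →ₗ[ℂ] H)).mp hT
  ext ζ
  have := congrArg (fun f : H →ₗ[ℂ] H => f ζ) hlin
  simpa using this

theorem pf_CC (hSP : T_SP H) (hENF : T_ENF H) : T_CC H := by
  intro N hN p hpN hp x hx hc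
  have hsx : star x ∈ corner N p := corner_star hp hx
  have hcs : ∀ y ∈ corner N p, star x * y = y * star x := by
    intro y hy
    have h1 := congrArg star (hc (star y) (corner_star hp hy))
    rw [star_mul, star_mul, star_star] at h1
    exact h1.symm
  obtain ⟨c₁, h₁⟩ := cc_sa hSP hENF hN hpN hp (corner_add hx hsx)
    (show star (x + star x) = x + star x by rw [star_add, star_star, add_comm])
    (fun y hy => by rw [add_mul, mul_add, hc y hy, hcs y hy])
  obtain ⟨c₂, h₂⟩ := cc_sa hSP hENF hN hpN hp (corner_smul Complex.I (corner_sub hx hsx))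
    (show star (Complex.I • (x - star x)) = Complex.I • (x - star x) by
      rw [star_smul, star_sub, star_star, Complex.star_def, Complex.conj_I, neg_smul, ← smul_neg,
        neg_sub])
    (fun y hy => by
      rw [smul_mul_assoc, mul_smul_comm, sub_mul, mul_sub, hc y hy, hcs y hy])
  refine ⟨(1 / 2 : ℂ) * ((c₁ : ℂ) - Complex.I * c₂), ?_⟩
  have h3 : x = (1 / 2 : ℂ) • ((x + star x) - Complex.I • (Complex.I • (x - star x))) := by
    rw [smul_smul, Complex.I_mul_I, neg_smul, one_smul, sub_neg_eq_add]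
    have : x + star x + (x - star x) = (2 : ℂ) • x := by
      rw [two_smul]
      abel
    rw [this, smul_smul]
    norm_num
  rw [h3, h₁, h₂, smul_smul, ← sub_smul, smul_smul]

end Pool.Agent.H13.BC
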